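import Mathlib
import Pool.Agent.Y228.HX.All
import Pool.Agent.Y228.HX.S6

/-!
# The motivic monodromy conjecture for the `χ_y`-genus: all nondegenerate polynomials, and the roots of
# the Bernstein-Sato polynomial for generic coefficients

Let `k` be a field, `k ⊂ ℂ`, and let `f = ∑_j c_j x ^ (v j) ∈ k[x_1, …, x_n]`, `f(0) = 0`, `c_j ≠ 0`, be
nondegenerate with respect to the compact faces of its Newton polyhedron at the origin (the usual
nondegeneracy of Kouchnirenko and Varchenko). There is no other condition: the number of variables,
the Newton polyhedron and the singularities are arbitrary.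

The motivic monodromy conjecture asks that the local motivic zeta function `Z_{f,0}(T) ∈ 𝓜_K[[T]]`
lies in the subring generated over `𝓜_K` by `T` and finitely many `1 / (1 - 𝕃 ^ a T ^ b)` such that the
`exp(2 π i a / b)` are eigenvalues of the monodromy of `f`. We prove this after applying to the
coefficients a ring homomorphism `φ : 𝓜_K → ℚ(u)` which is the `χ_y`-genus on the nondegenerate
hypersurfaces in tori (`ChiY φ`), that is `φ(𝕃) = u` and `φ` satisfies the formula of Danilov and
Khovanskii. The homomorphism given by the Hodge-Deligne polynomial, `[X] ↦ E(X; u, 1)`, which is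
`∑_{p,q} (-1) ^ (p + q) h^{p,q}(X) u ^ p` for smooth projective `X`, has this property, by theorems of
Deligne and of Danilov and Khovanskii (1986). These theorems are not formalised here; the result is
for all `φ` with this property.

The power series `φ(Z_{f,0}(T))` lies in the subring of `ℚ(u)[[T]]` generated over the field `ℚ(u)` by
`T` and finitely many `1 / (1 - u ^ a T ^ b)` with `a < 0 < b` such that `a / b - i` is a root of the local
Bernstein-Sato polynomial `b_{f,0}`, hence of `b_f`, for an integer `i`; by the theorem of Malgrange and
Kashiwara `exp(2 π i a / b)` is an eigenvalue of the monodromy of `f` at points of `{f = 0}` arbitrarily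
near to `0`. So the poles of the `χ_y`-genus of the motivic zeta function of every nondegenerate
polynomial, in any number of variables, give eigenvalues of the monodromy. The corresponding
statement for the topological zeta function is the case `u → 1`; the specialisation to `ℚ(u)`
keeps the orders of the candidate poles apart (`𝕃 ^ a T ^ b = 1` becomes `u ^ a T ^ b = 1`), and no
condition on the facets (as `HypVL`, `B1`-facets, four variables) is needed.

If moreover the coefficients at the vertices are generic, the `a / b` are themselves roots of `b_{f,0}`,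
hence of `b_f`, as Q1 asks: for `f = ∑_j c_j x ^ (v j) + h`, where `h` is an ARBITRARY polynomial over a
subfield `F` of `k` whose exponents are in the Newton polyhedron `conv {v j} + ℝ_{≥ 0} ^ n` and different
from the `v j`, this holds if `g(c) ≠ 0` for a certain nonzero polynomial `g` with coefficients in `F`.

The proof: the classes of the face polynomials are replaced by the Ehrhart series of the faces;
their class functions are valuations, and satisfy after a generic regular triangulation of the
compact faces the relations which are needed for the terms far away to vanish; the triangulation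
gives the recurrence from these terms. For generic coefficients Gröbner bases in the Weyl algebra over
`F(c_1, …, c_r)` (starting library) compare the generic Bernstein-Sato polynomial with the one of a
single member.
-/

set_option autoImplicit false

namespace Pool.Agent.Results.MP_b91a16_ag.ChiYGenus

open MvPolynomial Pool.Agent.W428.MOT
open Pool.Agent.TH216.MF (ratR)
open Pool.Agent.W425.ND (spa)
open Pool.Agent.Y229.CF (NondegC)
open Pool.Agent.Y228.HX (ChiY uX InNP)

/-- **The motivic monodromy conjecture at the origin, specialised to the `χ_y`-genus: (A) with roots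
modulo integers (eigenvalues) for all polynomials `f = ∑_j c_j x ^ (v j)` over `k ⊂ ℂ` which are
nondegenerate with respect to the compact faces of their Newton polyhedron; (B) with exact roots of
the Bernstein-Sato polynomial for all `∑_j c_j x ^ (v j) + h` with generic `c_j`. All Newton
polyhedra.**

`spa v c` is the polynomial `f = ∑_j c_j x ^ (v j)`. `NondegC v c` says that for every `w ∈ ℝ ^ n` with
positive coordinates the face polynomial of `f` (the sum of the terms `c_j x ^ (v j)` on which
`⟨w, v j⟩` is minimal) and its derivatives `x_i ∂_i` have no common zero in `(ℂ \ 0) ^ n`.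
`InNP v w` says that `w` is in the Newton polyhedron `conv {v j} + ℚ_{≥ 0} ^ n`: there are rational
`l j ≥ 0` with `∑_j l j = 1` and `∑_j l j * v j i ≤ w i` for all `i`.

`IsLocalBFunction f b` says that `b(s) f ^ s = P(s) f ^ (s + 1)` for a differential operator `P(s)`
with (formal, in particular convergent or polynomial) power series at the origin as coefficients;
`b_{f,0}` and `b_f` are such polynomials. `zeta f 0` is the local motivic zeta function `Z_{f,0}(T)` of
the problem over the field `K`, `MK K = K_0(Var_K)[𝕃⁻¹]`, `PowerSeries.map φ` applies `φ` to the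
coefficients, and `ratR uX S` is the subring of `ℚ(u)[[T]]` generated over `ℚ(u)` by `T` and the series
`1 / (1 - u ^ a T ^ b)`, `(a, b) ∈ S`. The finite set `S` does not depend on `K` and `φ`, in (B) neither
on `k` and `c`.

`ChiY φ` says that `φ(𝕃) = u` and that for all `n`, all families of distinct exponents `v j ∈ ℕ ^ n`,
`j ∈ κ`, and all coefficients `c_j ∈ K \ 0` such that `g = ∑_{j ∈ κ} c_j x ^ (v j)` is nondegenerate for all
the faces of its Newton polytope `P` (`NonL v κ c`: for every `w ∈ ℤ ^ n` the sum of the terms on which
`w` is minimal and its `x_i ∂_i` have no common zero in the torus over the algebraic closure of `K`)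
the class of the hypersurface `g = 0` in the torus of dimension `n` (`ZT v κ c`) has the value
`((u - 1) ^ n + (u - 1) ^ (n + 1) E(u)) / u`, where `E ∈ ℚ(u)` is the rational function with the power
series expansion `∑_k #(k P ∩ ℤ ^ n) u ^ k` at `0` (`Expd E`; `Dil v κ k` is `k P ∩ ℤ ^ n`). -/
theorem result :
    (∀ (k : Type) [Field k] [Algebra k ℂ] {n r : ℕ} (_ : 0 < r)
      (v : Fin r → Fin n → ℕ) (c : Fin r → k), Function.Injective v → (∀ j, v j ≠ 0) →
      (∀ j, c j ≠ 0) → NondegC v (fun j => algebraMap k ℂ (c j)) →
      ∃ S : Finset (ℤ × ℤ),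
        (∀ p ∈ S, p.1 < 0 ∧ 0 < p.2 ∧ ∀ b : Polynomial ℂ,
          Pool.Agent.H628R4.TP.IsLocalBFunction (spa v (fun j => algebraMap k ℂ (c j))) b →
            ∃ i : ℤ, b.eval ((p.1 : ℂ) / p.2 - i) = 0) ∧
        ∀ (K : Type) [Field K] [Algebra k K] (φ : MK K →+* RatFunc ℚ), ChiY φ →
          PowerSeries.map φ (zeta (spa v (fun j => algebraMap k K (c j))) 0) ∈ ratR uX S) ∧
    ∀ (F : Type) [Field F] [Algebra F ℂ] {n r : ℕ} (_ : 0 < r)
      (v : Fin r → Fin n → ℕ) (h : MvPolynomial (Fin n) F), Function.Injective v →
      (∀ j, v j ≠ 0) → (∀ w ∈ h.support, InNP v fun i => w i) →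
      (∀ w ∈ h.support, ∀ j, ¬ ∀ i, w i = v j i) →
      ∃ (g : MvPolynomial (Fin r) F) (S : Finset (ℤ × ℤ)), g ≠ 0 ∧
        (∀ p ∈ S, p.1 < 0 ∧ 0 < p.2) ∧
        ∀ (k : Type) [Field k] [Algebra F k] [Algebra k ℂ] [IsScalarTower F k ℂ] (c : Fin r → k),
          aeval c g ≠ 0 →
          (∀ p ∈ S, ∀ b : Polynomial ℂ, Pool.Agent.H628R4.TP.IsLocalBFunction
            (spa v (fun j => algebraMap k ℂ (c j)) + MvPolynomial.map (algebraMap F ℂ) h) b →
              b.eval ((p.1 : ℂ) / p.2) = 0) ∧
          ∀ (K : Type) [Field K] [Algebra k K] (φ : MK K →+* RatFunc ℚ), ChiY φ →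
            PowerSeries.map φ (zeta (spa v (fun j => algebraMap k K (c j)) +
              MvPolynomial.map ((algebraMap k K).comp (algebraMap F k)) h) 0) ∈ ratR uX S := by
  refine ⟨fun k _ _ n r hr v c hv hv0 hc hnd =>
    Pool.Agent.Y228.HX.hodge k hr v c hv hv0 hc hnd, fun F _ _ n r hr v h hv hv0 hh hvh => ?_⟩
  obtain ⟨g, S, hg, hS, H⟩ := Pool.Agent.Y228.HX.strongE (F := F) hr v hv hv0 h hh hvh
  exact ⟨g, S, hg, hS, fun k _ _ _ _ c hc =>
    ⟨(H k c hc).1, fun K _ _ φ hφ => ((H k c hc).2 K φ hφ).1⟩⟩

end Pool.Agent.Results.MP_b91a16_ag.ChiYGenus
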