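import Mathlib
import Pool.Agent.Y231.N4.G1
import Pool.Agent.TH216.LX.Lx4

/-!
# The motivic monodromy conjecture in four variables, generic coefficients

Let `f = ∑_j c_j x ^ (v j) + h` be a polynomial in four variables over a field `k ⊂ ℂ`, where the
`v j` are the vertices of their Newton polyhedron `conv {v j} + ℝ_{≥ 0} ^ 4`, `h` is an ARBITRARY
polynomial over a subfield `F ⊂ k` whose exponents are in this polyhedron, and the coefficients
`c_j ∈ k` are generic: `g(c) ≠ 0` for a certain nonzero polynomial `g` with coefficients in `F`
(`k = F` is allowed). There is NO condition on the Newton polyhedron, and the singularities need not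
be isolated.

* At the origin: there is a finite set `S` of pairs `(a, b)`, `a < 0 < b`, such that `a / b` is a root
of the Bernstein-Sato polynomial of `f`, and such that the local motivic zeta function of `f` at the
origin lies in `M_k[T, 1 / (1 - 𝕃 ^ a T ^ b)]`, `(a, b) ∈ S`.
* At all points: the same is true, with one set `S` for all points `x` over all fields which contain
`k`, if `f` is convenient. It is true for `h = 0`, or more generally under the condition `GlobOK` on
the exponents of `h`, except that `a / b = -2` is allowed if `f` vanishes on a coordinate subspace of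
codimension two.

Method. The functional equation gives, for algebraically independent `c_j`, an identity in a
polynomial ring with one variable for every `v j`. The candidate pole of a facet of the Newton
polyhedron is a root if the facet contains a simplex which is not `B1`, a suitable circuit, or if
`-(1, …, 1)` is a combination of independent vertices of a lower face without negative integers as
coefficients. In four variables every other facet whose candidate pole is not `-1` or `-2` is a
simplex, is `B1`, or it is compact and `B2`: the values of two of the coordinates at the vertices are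
`(0, 0)`, `(1, 0)` or `(0, 1)`; and these facets have common directions if they meet in a face which
is not simplicial. The same is true for the candidate pole `-2` unless, for a permutation `π` of the
variables which is not a cycle of length four, all the `x_i x_{π(i)}` are among the `x ^ (v j)`; then
the origin is a nondegenerate critical point of `f`, and `-2` is a root. For the `B2`-faces the part
of `f` which is linear in two variables gives a further linear relation between the classes of the
zero sets in the tori of the polynomials of the faces. It follows that for every `q ≥ 2` the factors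
`1 - q ^ (-a) T ^ N` with `a / N = σ` of the universal series cancel if `-σ` is not a root; hence they
cancel identically and `q` can be replaced by `𝕃`. The arcs whose origin is in the torus of a
coordinate subspace `≠ {0}` are treated in the same way.
-/

set_option autoImplicit false

namespace Pool.Agent.Results.MP_b91a16_ag.FourVariables

open MvPolynomial Pool.Agent.W428.MOT Pool.Agent.W375.MG Pool.Agent.W425.MM
open Pool.Agent.TH216.HD Pool.Agent.TH216.HDL
open Pool.Agent.Y231.N4 (GlobOK NoP2 main7)

/-- **The motivic monodromy conjecture (Bernstein-Sato form) for the polynomials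
`f = ∑_j c_j x ^ (v j) + h` in four variables with generic coefficients `c_j`: at the origin for all
Newton polyhedra, and at all points under conditions which hold for convenient `f`.**

`poly v c h` is the polynomial `f = ∑_j c_j x ^ (v j) + h`. `InPoly v w` says that `w` is in the Newton
polyhedron `conv {v j} + ℝ_{≥ 0} ^ 4`. `Vertices v` says that the `v j` are the vertices of this
polyhedron: no `v j` is in the Newton polyhedron of the other `v k`.

`zeta f x` is the local motivic zeta function `∑_{m ≥ 1} [X_{m,1,x}] 𝕃 ^ (-4 m) T ^ m` of `f` at `x`;
`ratRing K S` is the ring generated over `M_K` by `T` and the `1 / (1 - 𝕃 ^ a T ^ b)`,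
`(a, b) ∈ S`. `IsBFunction f b` says that `b(s) f ^ s = P(s) f ^ (s + 1)` for a differential operator
`P(s)` in the Weyl algebra, polynomial in `s`; the Bernstein-Sato polynomial `b_f` is one of these
polynomials `b`.

`NoP2 v` says that `f` does not vanish on a coordinate subspace of codimension two. `GlobOK v h` says
the following for every coordinate subspace `{x_i = 0, i ∈ J}`, except the origin, on which `f`
vanishes: if a `v j` has a coordinate `1` in `J`, then no exponent of `h` which is not one of
the `v k` has the same coordinates in `J` as `v j`. For convenient `f` both are true, and `GlobOK` is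
true for `h = 0`. -/
theorem result (F : Type) [Field F] [Algebra F ℂ] {r : ℕ} (hr : 0 < r) (v : Fin r → Fin 4 → ℕ)
    (hV : Vertices v) (hv : Function.Injective v) (hv0 : ∀ j, v j ≠ 0)
    (h : MvPolynomial (Fin 4) F) (hh : ∀ w ∈ h.support, InPoly v w) :
    ∃ g : MvPolynomial (Fin r) F, g ≠ 0 ∧
      ∀ (k : Type) [Field k] [Algebra F k] [Algebra k ℂ] [IsScalarTower F k ℂ] (c : Fin r → k),
      aeval c g ≠ 0 →
      (∃ S : Finset (ℤ × ℤ),
        (∀ p ∈ S, p.1 < 0 ∧ 0 < p.2 ∧ ∀ b : Polynomial ℂ,
          Pool.Agent.H628R4.TP.IsBFunction (poly v (fun j => algebraMap k ℂ (c j)) h) b →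
            b.eval ((p.1 : ℂ) / p.2) = 0) ∧
        zeta (poly v c h) 0 ∈ ratRing k S) ∧
      (GlobOK v h → ∃ S : Finset (ℤ × ℤ),
        (∀ p ∈ S, p.1 < 0 ∧ 0 < p.2 ∧ ((¬ NoP2 v ∧ p.1 = -2 * p.2) ∨ ∀ b : Polynomial ℂ,
          Pool.Agent.H628R4.TP.IsBFunction (poly v (fun j => algebraMap k ℂ (c j)) h) b →
            b.eval ((p.1 : ℂ) / p.2) = 0)) ∧
        ∀ (K : Type) [Field K] [Algebra k K] (x : Fin 4 → K),
          eval x (MvPolynomial.map (algebraMap k K) (poly v c h)) = 0 →
          zeta (MvPolynomial.map (algebraMap k K) (poly v c h)) x ∈ ratRing K S) := by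
  obtain ⟨g, hg, hgz⟩ := main7 (F := F) hr v hV hv hv0 h hh
  refine ⟨g, hg, fun k _ _ _ _ c hc => ⟨?_, fun hG => ?_⟩⟩
  · obtain ⟨S, hS, hz, -⟩ := hgz False False False.elim (fun h => h.elim) k c hc
    refine ⟨S, fun p hp => ?_, ?_⟩
    · obtain ⟨h1, h2, h3⟩ := hS p hp
      exact ⟨h1, h2, fun b hb => (h3.resolve_left fun h => h.1) b
        (Pool.Agent.TH216.LX.isLocal_of hb)⟩
    · refine Pool.Agent.TH216.LX.zeta_mem0 _ _ fun W E hW hE hWD => ?_
      have h1 := hz k W E hW hE (Or.inl hWD)
      rwa [Algebra.algebraMap_self, MvPolynomial.map_id] at h1
  · obtain ⟨S, hS, hz, -⟩ := hgz (GlobOK v h) (¬ NoP2 v) id (fun _ h => not_not.1 h) k c hc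
    refine ⟨S, fun p hp => ?_, fun K _ _ x _ => ?_⟩
    · obtain ⟨h1, h2, h3⟩ := hS p hp
      exact ⟨h1, h2, h3.imp_right fun h3 b hb => h3 b (Pool.Agent.TH216.LX.isLocal_of hb)⟩
    · exact zeta_mem _ x S (fun W E hW hE => hz K W E hW hE (Or.inr hG))

end Pool.Agent.Results.MP_b91a16_ag.FourVariables
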