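import Mathlib
import Pool.Agent.Y229.CF.N4B
import Pool.Agent.Y229.CF.OfLoc
import Pool.Agent.TH216.LX.Lx4
import Pool.Agent.Y228.GN.Main

/-!
# The motivic monodromy conjecture at all points for nondegenerate polynomials in four variables

Let `k` be a field, `k ⊂ ℂ`, and let `f = ∑_j c_j x ^ (v j) ∈ k[x_1, x_2, x_3, x_4]`, `f(0) = 0`,
`c_j ≠ 0`, be nondegenerate with respect to the COMPACT faces of its Newton polyhedron
`Γ = conv {v j} + ℝ_{≥ 0} ^ 4` (the usual nondegeneracy of Kouchnirenko and Varchenko). The Newton
polyhedron is arbitrary (it need not be simplicial or convenient), the coefficients need not be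
generic, and the singularities need not be isolated. Then the monodromy statement of Q1 is true for
`f`

* at `x = 0`;
* at all the points `x` of `{f = 0}` over all the fields `K ⊃ k`, with one finite set `S`, if `f` is
nondegenerate for all the faces of `Γ`, compact or not, and satisfies the condition `GlobV` on the
terms of `f` which are not vertices of `Γ`: for every coordinate subspace `{x_i = 0, i ∈ J}` different
from the origin on which `f` vanishes, no exponent which is not a vertex has the same coordinates in
`J` as a vertex with a coordinate `1` in `J`. It is empty for convenient `f`, and if all the exponents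
of `f` are vertices of `Γ`.

The local motivic zeta function `Z_{f,x}(T) = ∑_{m ≥ 1} [X_{m,1,x}] 𝕃 ^ (-4m) T ^ m` lies in the ring
generated over `𝓜_K` by `T` and finitely many `1 / (1 - 𝕃 ^ a T ^ b)` with `a < 0 < b` such that
`a / b - i` is a root of the local Bernstein-Sato polynomial `b_{f,0}`, hence of `b_f`, for an integer
`i`; by the theorem of Malgrange and Kashiwara `exp(2 π i a / b)` is an eigenvalue of the monodromy of
`f` at points of `{f = 0}` arbitrarily near to `0`.

The result `FourVariables` for this problem has the roots `a / b` themselves, for polynomials with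
generic coefficients. Here only the classes of the roots modulo `ℤ` are obtained, but for all
nondegenerate polynomials. For the topological zeta function the eigenvalue statement is a theorem of
Esterov, Lemahieu and Takeuchi.

Method (`Pool.Agent.Y229.CF`, `Pool.Agent.Y231.N4`, `Pool.Agent.Y228.ND4`, `Pool.Agent.Y228.GN`). The
functional equation of the Bernstein-Sato polynomial of `f` is deformed to very general
coefficients; the result is an algebraic relation between difference operators, which is restricted
to the vertices. Every facet of `Γ` whose candidate pole is not an integer contains a lower simplex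
which is not `B1`, or a suitable circuit, or a suitable point (in these three cases the relation
shows that the candidate pole is a root modulo integers), or it is a simplex, or `B1`, or `B2` in two
directions (a Cayley sum). If only the last three types occur at a level, the relation and the linear
relations between the classes of the zero sets of the face polynomials show that the factors
`1 - 𝕃 ^ a T ^ b` of this level cancel. For the arcs whose origin is in the torus of a coordinate
subspace `{x_i = 0, i ∈ J}` on which `f` vanishes, the exponents which are not vertices are added to a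
set `τ` of vertices if their coordinates in `J` are convex combinations of those of `τ`; this is
compatible with the relations by `GlobV`.
-/

set_option autoImplicit false

namespace Pool.Agent.Results.MP_b91a16_ag.NondegenerateFourVariables

open MvPolynomial Pool.Agent.W428.MOT Pool.Agent.W375.MG
open Pool.Agent.W425.ND (spa)
open Pool.Agent.Y229.CF (NondegC)
open Pool.Agent.Y228.GN (NondegP GlobV nd4G)

/-- **The monodromy statement of the motivic monodromy conjecture for the polynomials
`f = ∑_j c_j x ^ (v j)` in four variables over `k ⊂ ℂ` which are nondegenerate with respect to the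
compact faces of their Newton polyhedron: at the origin, and at all points if `f` is nondegenerate for
all the faces with the condition `GlobV` on the terms which are not vertices.**

`spa v c` is the polynomial `f = ∑_j c_j x ^ (v j)`. `NondegC v c` says that for every `w ∈ ℝ ^ 4` with
positive coordinates the face polynomial of `f` (the sum of the terms `c_j x ^ (v j)` on which
`⟨w, v j⟩` is minimal) and its derivatives `x_i ∂_i` have no common zero in `(ℂ \ 0) ^ 4`; `NondegP v c`
says this for every `w` with nonnegative coordinates. `GlobV v` says the following for every
coordinate subspace `{x_i = 0, i ∈ J}`, except the origin, on which `f` vanishes: if a vertex `v j` of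
the Newton polyhedron has a coordinate `1` in `J`, then no `v l` which is not a vertex has the same
coordinates in `J` as `v j`.

`IsLocalBFunction f b` says that `b(s) f ^ s = P(s) f ^ (s + 1)` for a differential operator `P(s)`
with (formal, in particular convergent or polynomial) power series at the origin as coefficients;
`b_{f,0}` and `b_f` are such polynomials. `zeta f x` is the local motivic zeta function `Z_{f,x}(T)` of
the problem over the field `K`. The finite set `S` is the same for all the fields `K` which contain `k`
and for all `x`. -/
theorem result (k : Type) [Field k] [Algebra k ℂ] {r : ℕ} (hr : 0 < r)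
    (v : Fin r → Fin 4 → ℕ) (c : Fin r → k) (hv : Function.Injective v) (hv0 : ∀ j, v j ≠ 0)
    (hc : ∀ j, c j ≠ 0) (hnd : NondegC v (fun j => algebraMap k ℂ (c j))) :
    ∃ S : Finset (ℤ × ℤ),
      (∀ p ∈ S, p.1 < 0 ∧ 0 < p.2 ∧ ∀ b : Polynomial ℂ,
        Pool.Agent.H628R4.TP.IsLocalBFunction (spa v (fun j => algebraMap k ℂ (c j))) b →
          ∃ i : ℤ, b.eval ((p.1 : ℂ) / p.2 - i) = 0) ∧
      ∀ (K : Type) [Field K] [Algebra k K] (x : Fin 4 → K),
        eval x (spa v (fun j => algebraMap k K (c j))) = 0 →
        (x = 0 ∨ (NondegP v (fun j => algebraMap k ℂ (c j)) ∧ GlobV v)) →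
        zeta (spa v (fun j => algebraMap k K (c j))) x ∈ ratRing K S := by
  classical
  obtain ⟨S, hS, hz⟩ := Pool.Agent.Y229.CF.nd_four' hr v hv hv0 c hc hnd
  have hS' : ∀ p ∈ S, p.1 < 0 ∧ 0 < p.2 ∧ ∀ b : Polynomial ℂ,
      Pool.Agent.H628R4.TP.IsLocalBFunction (spa v (fun j => algebraMap k ℂ (c j))) b →
        ∃ i : ℤ, b.eval ((p.1 : ℂ) / p.2 - i) = 0 := by
    intro p hp
    refine ⟨(hS p hp).1, (hS p hp).2.1, fun b hb => ?_⟩
    obtain ⟨h1, h2⟩ := Pool.Agent.Y229.CF.of_local' v (by omega) _ hv hv0 hnd b hb
    exact (hS p hp).2.2 b h1 h2
  by_cases hG : NondegP v (fun j => algebraMap k ℂ (c j)) ∧ GlobV v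
  · obtain ⟨S1, hS1, hz1, -⟩ := nd4G hr v hv hv0 c hc hG.1 True (fun _ => hG.2)
    refine ⟨S1, hS1, fun K _ _ x _ _ => ?_⟩
    exact Pool.Agent.W425.MM.zeta_mem _ x S1 (fun W E hW hE => hz1 K W E hW hE (Or.inr trivial))
  · refine ⟨S, hS', fun K _ _ x _ h => ?_⟩
    rcases h with h | h
    · subst h
      exact Pool.Agent.TH216.LX.zeta_mem0 _ _ (hz K)
    · exact absurd h hG

end Pool.Agent.Results.MP_b91a16_ag.NondegenerateFourVariables
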