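import Pool.Agent.Y229.MS.Fin

/-!
# The motivic monodromy conjecture at all points for stably sparse polynomials

Let `f` be a polynomial in `x_1, …, x_n` over a field `k ⊂ ℂ` such that, for some `κ ≥ 0`,
`f(x) + y_1 z_1 + ⋯ + y_κ z_κ` becomes, by an automorphism of the polynomial ring `k[x, y, z]`, a
polynomial `G` whose exponent vectors are affinely independent. We prove the motivic monodromy
conjecture for `f`, in its strong form (with roots of the Bernstein-Sato polynomial), at all points:
one finite set `S` of pairs `(a, b)`, `a / b` a root of `b_f`, works for the local motivic zeta functions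
`Z_{f,x}(T)` of `f` at all points `x` with coordinates in an arbitrary field `K ⊃ k`.

Main case: `f(x) = Φ(x, p_1(x), …, p_κ(x))` such that the exponents of all the monomials of
`G = Φ(x, z) + ∑_i y_i (c_i z_i - p_i(x))` are affinely independent. For example
`f = x ^ u ∏_{i ≤ κ} (x ^ (α_i) - λ_i x ^ (β_i)) ^ (e_i)` for linearly independent `α_i - β_i` and arbitrary
`λ_i ≠ 0`, `u`, `e_i ≥ 1`; suitable sums of such products, such as `(x_2 ^ 2 - x_1 ^ 3) ^ 2 - x_1 ^ 5 x_2`;
and `x ^ u p(x) ^ e` for every `p` with affinely independent exponents. These polynomials are in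
general degenerate with respect to their Newton polytopes in all coordinates, not reduced, and
their singularities are not isolated. Iterated compositions are in the first part of the theorem. `κ = 0` is the earlier result for
polynomials with affinely independent exponents.

Method. All identities are proved for the jets, in the Grothendieck ring localised at `𝕃`; neither
a resolution nor a formula for the zeta function of `f` is used. For `g = f + y z` the jets with
`ord y = i` are classified: `[X_N(g)] = [X_N(f)] 𝕃 ^ (N + 1) + (𝕃 - 1) 𝕃 ^ N ∑_{i ≤ N} [ord f ≥ i]`, and the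
same for the jets with `ord g > N`. So the zeta function of `g` and its tail function, with `T` replaced
by `𝕃 T`, are combinations of those of `f`. One cannot solve for the zeta function of `f` (this would
need division by `𝕃 - 1`), but with a second pair of variables the tails can be eliminated exactly:
`𝕃 ^ 3 (1 - 𝕃⁻¹ T) Z_f(T) = (𝕃 ^ 2 + 𝕃) U_1(𝕃 T) - U_2(𝕃 ^ 2 T)`,
`U_1 = (1 - 𝕃⁻¹ T) Z_{f + y z}(T)`, `U_2 = (1 - 𝕃⁻¹ T) Z_{f + y z + y' z'}(T)`. By induction `Z_f` is
determined by the zeta functions of `G` and `G + y z`. These have affinely independent exponents;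
for them the earlier theorem is refined: the denominator of `(1 - 𝕃⁻¹ T) Z_G(T)` contains only the
factors `1 - 𝕃 ^ (- |a|) T ^ (N_a)` of the rays `a` of the fan such that `-|a| / N_a` is a root of every
`c(s)` with `(s + 1) c(s)` in the Bernstein-Sato ideal of `G`. Finally a functional equation of `f` with
`b(s) = (s + 1) c(s)` gives one of `f + ∑ y_i z_i`, and of `G`, with `(s + 1) c(s + κ)`.
-/

set_option autoImplicit false

namespace Pool.Agent.Results.MP_b91a16_ag.StablySparse

open MvPolynomial Pool.Agent.W428.MOT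
open Pool.Agent.W375.MG (zetaG Good)
open Pool.Agent.W749.JI (fam)
open Pool.Agent.Y229.RE (ex)
open Pool.Agent.Y229.MS (stabK)

/-- The exponent vectors `v j` are affinely independent (over `ℚ`). -/
def AffInd {r m : ℕ} (v : Fin r → Fin m → ℕ) : Prop :=
  AffineIndependent ℚ (fun j : Fin r => (fun i => (v j i : ℚ) : Fin m → ℚ))

/-- The strong form of the motivic monodromy conjecture for `f` at all points, with the finite set `S`
of pairs `(a, b)` of integers: `b > 0` and `a / b` is a root of every polynomial `b` with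
`b(s) f ^ s = P(s) f ^ (s + 1)`, `P(s)` a differential operator in the Weyl algebra, polynomial in `s`
(`IsBFunction`), in particular of the Bernstein-Sato polynomial of `f`; and for every field `K ⊃ k`
and every point `x` with coordinates in `K` the local motivic zeta function
`zeta f x = ∑_{N ≥ 1} [X_{N,1,x}] 𝕃 ^ (-n N) T ^ N` is in the ring `ratRing K S` generated over
`K₀(Var_K)[𝕃⁻¹]` by `T` and the `1 / (1 - 𝕃 ^ a T ^ b)`, `(a, b) ∈ S`. The same holds for the zeta
functions `zetaG f W E` of the jets with origin in a constructible set `W` for which the leading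
coefficient of `f` is in a constructible set `E` of nonzero numbers (for all nonzero numbers: the
naive motivic zeta function). -/
def StrongMC {k : Type} [Field k] [Algebra k ℂ] {n : ℕ} (f : MvPolynomial (Fin n) k)
    (S : Finset (ℤ × ℤ)) : Prop :=
  (∀ p ∈ S, 0 < p.2 ∧ ∀ b : Polynomial ℂ,
    Pool.Agent.H628R4.TP.IsBFunction (map (algebraMap k ℂ) f) b →
      b.eval ((p.1 : ℂ) / p.2) = 0) ∧
  ∀ (K : Type) [Field K] [Algebra k K],
    (∀ x : Fin n → K, zeta (map (algebraMap k K) f) x ∈ ratRing K S) ∧
    ∀ (W : Set (Pt K (Fin n))) (E : Set (AlgebraicClosure K)), Constr W → Good E →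
      zetaG (map (algebraMap k K) f) W E ∈ ratRing K S

/-- **The motivic monodromy conjecture (Bernstein-Sato form) at all points for stably sparse
polynomials.**

`stabK f κ` is the polynomial `f(x) + ∑_{i ≤ κ} y_i z_i` in `n + 2 κ` variables.

First part. Let `f` be non-constant and let `φ` be an automorphism of the `k`-algebra `k[x, y, z]` such
that `φ(f + ∑ y_i z_i) = ∑_j c_j X ^ (v j)`, `c_j ≠ 0`, with at least two monomials, and the exponent
vectors `v j` affinely independent. Then `StrongMC f S` for a finite set `S` of pairs `(a, b)`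
(`a < 0` by the theorem of Kashiwara).

Second part (compositions). Let exponents `m_j` of monomials in `x_1, …, x_n, z_1, …, z_κ` be given,
`j = 1, …, r`, in groups `π j ∈ {0, …, κ}`, and `a_j ≠ 0`; let `Φ = fam π m a 0 = ∑_{π j = 0} a_j X ^ (m_j)`
and let `fam π m a i.succ = ∑_{π j = i} a_j X ^ (m_j)` be `c_i z_i - p_i(x)`, `c_i ≠ 0`, for `i = 1, …, κ`.
If the exponents `ex π m` of `G = Φ + ∑_i y_i (c_i z_i - p_i(x))` are affinely independent, then the
conclusion holds for `f(x) = Φ(x, p_1(x) / c_1, …, p_κ(x) / c_κ)`, non-constant, with `a < 0 < b` for all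
`(a, b) ∈ S`. -/
theorem result (k : Type) [Field k] [Algebra k ℂ] {n κ r : ℕ} (hr : 2 ≤ r) :
    (∀ f : MvPolynomial (Fin n) k, f.totalDegree ≠ 0 →
      ∀ v : Fin r → Fin (n + (κ + κ)) → ℕ, AffInd v →
      ∀ c : Fin r → k, (∀ j, c j ≠ 0) →
      ∀ φ : MvPolynomial (Fin (n + (κ + κ))) k ≃ₐ[k] MvPolynomial (Fin (n + (κ + κ))) k,
      φ (stabK f κ) = ∑ j, C (c j) * ∏ i, X i ^ v j i →
      ∃ S : Finset (ℤ × ℤ), StrongMC f S) ∧
    (∀ (π : Fin r → Fin (κ + 1)) (m : Fin r → Fin (n + κ) → ℕ), AffInd (ex π m) →
      ∀ a : Fin r → k, (∀ j, a j ≠ 0) →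
      ∀ c : Fin κ → k, (∀ i, c i ≠ 0) → ∀ p : Fin κ → MvPolynomial (Fin n) k,
      (∀ i : Fin κ, fam π m a i.succ = C (c i) * X (Fin.natAdd n i) -
        rename (Fin.castAdd κ) (p i)) →
      ∀ f : MvPolynomial (Fin n) k,
      f = aeval (Fin.append X fun i => C (c i)⁻¹ * p i) (fam π m a 0) → f.totalDegree ≠ 0 →
      ∃ S : Finset (ℤ × ℤ), (∀ p ∈ S, p.1 < 0) ∧ StrongMC f S) := by
  refine ⟨?_, ?_⟩
  · intro f hf v hv c hc φ hφ
    obtain ⟨S, hS, hz⟩ := Pool.Agent.Y229.MS.all hr f hf v hv c hc φ hφ
    exact ⟨S, fun p hp => ⟨(hS p hp).1, (hS p hp).2.2⟩, hz⟩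
  · intro π m hv a ha c hc p hl f hff hf
    obtain ⟨S, hS, hz⟩ := Pool.Agent.Y229.MS.all_comp hr π m hv a ha c hc p hl f hff hf
    exact ⟨S, fun p hp => (hS p hp).1, fun p hp => (hS p hp).2, hz⟩

end Pool.Agent.Results.MP_b91a16_ag.StablySparse
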